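import Pool.Agent.H57.SeqSep2

set_option autoImplicit false

namespace Pool.Agent.Results.MP_8c4e2c_gt.UnderCH

theorem result (hCH : Cardinal.continuum.{0} = Cardinal.aleph 1) :
    ¬ (∀ (X : Type) [TopologicalSpace X] [T35Space X],
      (∀ S : Set {f : X → ℝ // Continuous f},
          ∃ c ⊆ S, c.Countable ∧ S ⊆ closure c) →
      ∃ D : Set {f : X → ℝ // Continuous f}, D.Countable ∧ seqClosure D = Set.univ) :=
  Pool.Agent.H57.SeqSep.notseq2 hCH

end Pool.Agent.Results.MP_8c4e2c_gt.UnderCH
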